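import Pool.Agent.TH540.Davenport

/-!
# The generalized Bloch conjecture for Fermat hypersurfaces

Let `X` be the Fermat hypersurface `x_1 ^ m + ... + x_n ^ m = 0` over the complex numbers, of
dimension `n - 2`. Its primitive Chow motive (with coefficients in the field of `m`-th roots of unity)
is the direct sum of motives `V(s)`, indexed by the lists `s` of `n` nonzero residues modulo `m`
with sum zero, up to order; the cohomology of `V(s)` is a line. If the representatives of `s` in
`{1, ..., m - 1}` have sum `m * (p + 1)`, then this line has Hodge type `(p, n - 2 - p)` (or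
`(n - 2 - p, p)`, depending on conventions; both occur, for `s` and `-s`). So `HodgeConiveau m n c`
says that `h ^ {p, q} (X) = 0` whenever `p ≠ q` and `min (p, q) < c`.

By Shioda and Katsura `V(σ + τ) = V(σ) ⊗ V(τ) (-1)` as Chow motives, if `σ` and `τ` are nonempty with
sum zero. Hence if `s` is the union of `c + 1` nonempty lists with sum zero, then `V(s)` is `M(-c)`
with `M` effective, a direct summand of the motive of a product of `c + 1` Fermat varieties of degree
`m`, and `CH_i (V(s)) = 0` for all `i < c`. And if `s` is a union of pairs `{a, -a}`, then `V(s)` is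
the `(n - 2) / 2`-th power of the Lefschetz motive. In both cases `V(s)` has no homologically trivial
cycles of dimension less than `c`.

So the following theorem gives the generalized Bloch conjecture, for all `c`, for the Fermat
hypersurfaces of all degrees and dimensions: if `X` has Hodge coniveau at least `c`, then
`A_i ^ hom (X) = 0` for all `i < c`. The passage from lists to motives is not formalised.
-/

namespace Pool.Agent.Results.MP_13bc1c_ag.FermatHypersurfaces

/-- The list `s` of `n` nonzero residues modulo `m` has sum zero. -/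
def IsLine (m n : ℕ) (s : Multiset (ZMod m)) : Prop :=
  Multiset.card s = n ∧ (0 : ZMod m) ∉ s ∧ s.sum = 0

/-- The sum of the representatives in `{1, ..., m - 1}`. -/
def height (m : ℕ) (s : Multiset (ZMod m)) : ℕ := (s.map ZMod.val).sum

/-- The Fermat hypersurface of degree `m` and dimension `n - 2` has Hodge coniveau at least `c`. -/
def HodgeConiveau (m n c : ℕ) : Prop :=
  ∀ s, IsLine m n s → 2 * height m s ≠ m * n → m * (c + 1) ≤ height m s

lemma cast_height {m : ℕ} [NeZero m] (s : Multiset (ZMod m)) :
    ((height m s : ℕ) : ZMod m) = s.sum := by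
  unfold height
  induction s using Multiset.induction_on with
  | empty => simp
  | cons a s ih =>
    rw [Multiset.map_cons, Multiset.sum_cons, Nat.cast_add, ih, ZMod.natCast_zmod_val,
      Multiset.sum_cons]

lemma dvd_height {m : ℕ} [NeZero m] {s : Multiset (ZMod m)} (h : s.sum = 0) :
    m ∣ height m s := by
  rw [← ZMod.natCast_eq_zero_iff, cast_height, h]

lemma card_le_height {m : ℕ} [NeZero m] {s : Multiset (ZMod m)} (h0 : (0 : ZMod m) ∉ s) :
    Multiset.card s ≤ height m s := by
  unfold height
  induction s using Multiset.induction_on with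
  | empty => simp
  | cons a s ih =>
    rw [Multiset.mem_cons, not_or] at h0
    have h1 := ih h0.2
    have h2 : 0 < a.val := by
      rw [Nat.pos_iff_ne_zero, Ne, ZMod.val_eq_zero]
      exact fun h => h0.1 h.symm
    rw [Multiset.map_cons, Multiset.sum_cons, Multiset.card_cons]
    omega

lemma height_neg {m : ℕ} [NeZero m] {s : Multiset (ZMod m)} (h0 : (0 : ZMod m) ∉ s) :
    height m (s.map Neg.neg) + height m s = m * Multiset.card s := by
  unfold height
  induction s using Multiset.induction_on with
  | empty => simp
  | cons a s ih =>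
    rw [Multiset.mem_cons, not_or] at h0
    have h1 := ih h0.2
    have h3 : (-a).val = m - a.val := by
      rw [ZMod.neg_val, if_neg fun h => h0.1 h.symm]
    have h4 : a.val ≤ m := (ZMod.val_lt _).le
    rw [Multiset.map_cons, Multiset.map_cons, Multiset.sum_cons, Multiset.map_cons,
      Multiset.sum_cons, Multiset.card_cons, h3, mul_add]
    omega

/-- there is a list with the smallest possible height -/
lemma exists_line {m n κ : ℕ} [NeZero m] (hm : 3 ≤ m) (hn : 2 ≤ n) (h1 : m * κ < n + m)
    (h2 : n ≤ m * κ) : ∃ s, IsLine m n s ∧ height m s = m * κ := by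
  have key : ∀ s : Multiset (ZMod m), Multiset.card s = n → (0 : ZMod m) ∉ s →
      height m s = m * κ → ∃ s, IsLine m n s ∧ height m s = m * κ := by
    intro s a1 a2 a3
    refine ⟨s, ⟨a1, a2, ?_⟩, a3⟩
    rw [← cast_height, a3]
    simp
  have hone : (1 : ZMod m).val = 1 := by
    have := ZMod.val_natCast_of_lt (n := m) (a := 1) (by omega)
    simpa using this
  have hone0 : (0 : ZMod m) ≠ 1 := by
    intro h
    rw [← h, ZMod.val_zero] at hone
    omega
  have hrep : ∀ k : ℕ, ((Multiset.replicate k (1 : ZMod m)).map ZMod.val).sum = k := by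
    intro k
    rw [Multiset.map_replicate, hone, Multiset.sum_replicate, smul_eq_mul, mul_one]
  obtain ⟨δ, hδ⟩ : ∃ δ, n + δ = m * κ := ⟨m * κ - n, by omega⟩
  by_cases hδm : δ + 1 < m
  · have e1 : ((1 + δ : ℕ) : ZMod m).val = 1 + δ := ZMod.val_natCast_of_lt (by omega)
    refine key (((1 + δ : ℕ) : ZMod m) ::ₘ Multiset.replicate (n - 1) 1) ?_ ?_ ?_
    · rw [Multiset.card_cons, Multiset.card_replicate]; omega
    · rw [Multiset.mem_cons, not_or]
      refine ⟨fun h => ?_, fun h => hone0 (Multiset.eq_of_mem_replicate h)⟩
      rw [← h, ZMod.val_zero] at e1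
      omega
    · unfold height
      rw [Multiset.map_cons, Multiset.sum_cons, hrep, e1]
      omega
  · have e1 : ((m - 1 : ℕ) : ZMod m).val = m - 1 := ZMod.val_natCast_of_lt (by omega)
    have e2 : ((2 : ℕ) : ZMod m).val = 2 := ZMod.val_natCast_of_lt (by omega)
    refine key (((m - 1 : ℕ) : ZMod m) ::ₘ ((2 : ℕ) : ZMod m) ::ₘ
      Multiset.replicate (n - 2) 1) ?_ ?_ ?_
    · rw [Multiset.card_cons, Multiset.card_cons, Multiset.card_replicate]; omega
    · rw [Multiset.mem_cons, not_or, Multiset.mem_cons, not_or]
      refine ⟨fun h => ?_, fun h => ?_, fun h => hone0 (Multiset.eq_of_mem_replicate h)⟩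
      · rw [← h, ZMod.val_zero] at e1
        omega
      · rw [← h, ZMod.val_zero] at e2
        omega
    · unfold height
      rw [Multiset.map_cons, Multiset.sum_cons, Multiset.map_cons, Multiset.sum_cons, hrep, e1, e2]
      omega

lemma pairs_two {s : Multiset (ZMod 2)} (h0 : (0 : ZMod 2) ∉ s) (hs : s.sum = 0) :
    ∃ u : Multiset (ZMod 2), s = u + u.map Neg.neg := by
  have h1 : s = Multiset.replicate (Multiset.card s) 1 := by
    rw [Multiset.eq_replicate]
    refine ⟨rfl, fun b hb => ?_⟩
    have h2 : b ≠ 0 := fun h => h0 (h ▸ hb)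
    revert h2
    generalize b = x
    decide +revert
  have h3 : ((Multiset.card s : ℕ) : ZMod 2) = 0 := by
    have h4 : s.sum = ((Multiset.card s : ℕ) : ZMod 2) := by
      conv_lhs => rw [h1]
      rw [Multiset.sum_replicate, nsmul_eq_mul, mul_one]
    rw [← h4, hs]
  rw [ZMod.natCast_eq_zero_iff] at h3
  obtain ⟨k, hk⟩ := h3
  refine ⟨Multiset.replicate k 1, ?_⟩
  rw [Multiset.map_replicate, h1, hk, show (-1 : ZMod 2) = 1 by decide, ← Multiset.replicate_add]
  congr 1
  omega

lemma pairs_three {s : Multiset (ZMod 3)} (h0 : (0 : ZMod 3) ∉ s)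
    (hs : 2 * height 3 s = 3 * Multiset.card s) :
    ∃ u : Multiset (ZMod 3), s = u + u.map Neg.neg := by
  have h1 : s = Multiset.replicate (s.count 1) 1 + Multiset.replicate (s.count 2) 2 := by
    ext a
    rw [Multiset.count_add, Multiset.count_replicate, Multiset.count_replicate]
    have ha : a = 0 ∨ a = 1 ∨ a = 2 := by
      generalize a = x
      decide +revert
    rcases ha with rfl | rfl | rfl
    · rw [Multiset.count_eq_zero_of_notMem h0, if_neg (by decide), if_neg (by decide)]
    · rw [if_pos rfl, if_neg (by decide), add_zero]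
    · rw [if_neg (by decide), if_pos rfl, zero_add]
  generalize s.count 1 = x at h1
  generalize s.count 2 = y at h1
  subst h1
  have h2 : x = y := by
    unfold height at hs
    rw [Multiset.map_add, Multiset.sum_add, Multiset.map_replicate, Multiset.map_replicate,
      Multiset.sum_replicate, Multiset.sum_replicate, Multiset.card_add, Multiset.card_replicate,
      Multiset.card_replicate, show (1 : ZMod 3).val = 1 by decide,
      show (2 : ZMod 3).val = 2 by decide, smul_eq_mul, smul_eq_mul] at hs
    omega
  subst h2
  exact ⟨Multiset.replicate x 1, by rw [Multiset.map_replicate, show (-1 : ZMod 3) = 2 by decide]⟩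

theorem result (m n c : ℕ) (hm : 2 ≤ m) (hn : 2 ≤ n) (hc : HodgeConiveau m n c)
    (s : Multiset (ZMod m)) (hs : IsLine m n s) :
    (∃ P : Multiset (Multiset (ZMod m)), Multiset.card P = c + 1 ∧ P.join = s ∧
      ∀ σ ∈ P, σ ≠ 0 ∧ σ.sum = 0) ∨
    ∃ u : Multiset (ZMod m), s = u + u.map Neg.neg := by
  have hz : NeZero m := ⟨by omega⟩
  obtain ⟨s1, s2, s3⟩ := hs
  by_cases h1 : m * c < n
  · exact Or.inl (TH540.exists_split c s s3 (by rw [s1]; exact h1))
  right
  rcases Nat.lt_or_ge 2 m with hm3 | hm2
  · -- the smallest possible height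
    obtain ⟨κ, k1, k2, k3⟩ : ∃ κ, m * κ < n + m ∧ n ≤ m * κ ∧ κ ≤ c := by
      refine ⟨(n + m - 1) / m, ?_, ?_, ?_⟩
      · have := Nat.mul_div_le (n + m - 1) m
        omega
      · have := Nat.lt_mul_div_succ (n + m - 1) (b := m) (by omega)
        rw [mul_add, mul_one] at this
        omega
      · rw [Nat.div_le_iff_le_mul_add_pred (by omega)]
        omega
    obtain ⟨s0, hs0, hh⟩ := exists_line hm3 hn k1 k2
    have h2 : n = 2 * κ := by
      by_contra hne
      have h3 := hc s0 hs0 (by
        rw [hh]
        intro h4
        apply hne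
        have h5 : m * (2 * κ) = m * n := by rw [← h4]; ring
        exact (Nat.eq_of_mul_eq_mul_left (by omega) h5).symm)
      rw [hh] at h3
      have := Nat.le_of_mul_le_mul_left h3 (by omega)
      omega
    -- all heights are equal
    have hlow : ∀ s' : Multiset (ZMod m), IsLine m n s' → m * κ ≤ height m s' := by
      rintro s' ⟨a1, a2, a3⟩
      obtain ⟨q, hq⟩ := dvd_height a3
      have h3 := card_le_height a2
      rw [a1, hq] at h3
      rw [hq]
      apply Nat.mul_le_mul_left
      by_contra h4
      have h5 : m * (q + 1) ≤ m * κ := Nat.mul_le_mul_left _ (by omega)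
      rw [mul_add, mul_one] at h5
      omega
    have hneg : IsLine m n (s.map Neg.neg) := by
      refine ⟨by rw [Multiset.card_map, s1], fun h => ?_, ?_⟩
      · obtain ⟨b, hb, hb0⟩ := Multiset.mem_map.mp h
        rw [neg_eq_zero] at hb0
        rw [hb0] at hb
        exact s2 hb
      · rw [Multiset.sum_map_neg', s3, neg_zero]
    have e1 := hlow s ⟨s1, s2, s3⟩
    have e2 := hlow _ hneg
    have e3 := height_neg s2
    rw [s1, h2, ← mul_assoc, mul_comm m 2, mul_assoc] at e3
    have e4 : height m s = m * κ := by omega
    by_cases hκ : κ ≤ 1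
    · have hn2 : Multiset.card s = 2 := by omega
      obtain ⟨a, b, rfl⟩ := Multiset.card_eq_two.mp hn2
      refine ⟨{a}, ?_⟩
      have h6 : a + b = 0 := by simpa using s3
      rw [Multiset.map_singleton, ← eq_neg_of_add_eq_zero_right h6]
      rfl
    · have hm' : m = 3 := by
        obtain ⟨r, rfl⟩ : ∃ r, κ = r + 2 := ⟨κ - 2, by omega⟩
        obtain ⟨q, rfl⟩ : ∃ q, m = q + 3 := ⟨m - 3, by omega⟩
        rcases Nat.eq_zero_or_pos q with h | h
        · rw [h]
        · exfalso
          nlinarith
      subst hm'
      exact pairs_three s2 (by rw [e4, s1, h2]; ring)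
  · have hm' : m = 2 := by omega
    subst hm'
    exact pairs_two s2 s3

end Pool.Agent.Results.MP_13bc1c_ag.FermatHypersurfaces
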