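import Pool.Agent.TH540.SavChen3

/-!
# The generalized Bloch conjecture for quotients of Fermat hypersurfaces

Let `X` be the Fermat hypersurface `x_1 ^ m + ... + x_n ^ m = 0` of dimension `n - 2` over the complex
numbers. Its primitive cohomology is the sum of lines `V(a)`, where `a : Fin n → ZMod m` has nonzero
values and sum zero (`IsCharacter`). The line has Hodge type `(p, n - 2 - p)` (or `(n - 2 - p, p)`,
depending on conventions; both occur, for `a` and `-a`) if `height m n a = m * (p + 1)`.

Let `A` be a set of such `a` which is closed under multiplication by the units modulo `m`. Then the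
sum of the lines `V(a)`, `a` in `A`, is a rational Hodge structure, a direct summand of the primitive
cohomology. Example: `G` is a group of automorphisms `x_i ↦ ζ ^ {g_i} x_i` and `A` the set of all `a` which
are trivial on `G`; then one gets the primitive cohomology of `X / G`. (If `G` also permutes the
variables, one takes the set of all `a` for which `G` has nonzero invariants in the sum of the
`V(σ a)`, `σ` a permutation.)

By Shioda and Katsura the Chow motive `V(a)` is `V(a') ⊗ V(a'')(-1)` if `a` is composed of nonempty
blocks `a'`, `a''` with sum zero. So if the index set is a union of `c + 1` nonempty blocks on which `a`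
has sum zero, then `V(a)` is `M(-c)` for an effective motive `M`, a direct summand of the motive of a
product of `c + 1` Fermat varieties; in particular it has no cycles of dimension less than `c`.

The theorem says: if `2 n ≥ (2 c - 1) m + 3` and the Hodge number `h ^ {c - 1, n - 1 - c}` of the sum of
the lines `V(a)`, `a` in `A`, is zero, then all motives `V(a)`, `a` in `A`, are of this kind.
-/

namespace Pool.Agent.Results.MP_13bc1c_ag.FermatQuotients

/-- `a` is a character of the primitive cohomology of the Fermat hypersurface of degree `m` in `n`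
variables. -/
def IsCharacter (m n : ℕ) (a : Fin n → ZMod m) : Prop := (∀ i, a i ≠ 0) ∧ ∑ i, a i = 0

/-- The sum of the representatives in `{1, ..., m - 1}`. -/
def height (m n : ℕ) (a : Fin n → ZMod m) : ℕ := ∑ i, (a i).val

theorem result (m n c : ℕ) (hm : 1 ≤ m) (hc : 1 ≤ c) (hn : (2 * c - 1) * m + 3 ≤ 2 * n)
    (A : Set (Fin n → ZMod m)) (hA : ∀ a ∈ A, IsCharacter m n a)
    (hu : ∀ a ∈ A, ∀ t : (ZMod m)ˣ, (fun i => (t : ZMod m) * a i) ∈ A)
    (hG : ∀ a ∈ A, height m n a ≠ m * c) :
    ∀ a ∈ A, ∃ f : Fin n → ℕ, (∀ i, f i ≤ c) ∧
      ∀ j ≤ c, (∃ i, f i = j) ∧ ∑ i with f i = j, a i = 0 := by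
  intro a ha
  have hz : NeZero m := ⟨by omega⟩
  obtain ⟨h1, h2⟩ := hA a ha
  rcases TH540.SC.blocks hc hn h1 h2 with h | ⟨t, ht⟩
  · exact h
  · exact absurd ht (hG _ (hu a ha t))

end Pool.Agent.Results.MP_13bc1c_ag.FermatQuotients
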