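import Pool.Agent.TH829.Inj.Local

/-!
# Decompositions of the diagonal can be checked modulo all prime tensor ideals

Let `𝒜` be a `ℚ`-linear symmetric monoidal category in which all objects have duals, for example the
category of Chow motives over `ℂ` with rational coefficients, `M` an object and `𝒮` a class of
objects.

(1) For each tensor ideal `I`: `M` is, modulo `I`, a direct summand of a finite direct sum of
objects of `𝒮` if and only if the same is true modulo `P` for each prime tensor ideal `P` containing
`I`.

(2) In particular (`I = 0`): `𝟙 M` is a finite sum of endomorphisms which factor through objects of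
`𝒮` if and only if this is true modulo each prime tensor ideal, that is, modulo each tensor ideal `P`
such that `𝒜/P` is not zero and has no zero divisors for the tensor product of morphisms.

Let `L` be the Lefschetz motive and `Y` a smooth projective variety. For `M = h(Y)` and `𝒮` the class
of the objects `L^i`, `i < c`, and `h(Z) ⊗ L^c`, `Z` smooth projective, the decomposition of (2) is
the decomposition of the diagonal of `Y` which is equivalent to `A_i^hom(Y) = 0` for all `i < c`
(Bloch-Srinivas, Paranjape, Laterveer, Jannsen).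

Proof. Let `S` be the class of the endomorphisms `1 - r` of `M` with `r` a finite sum of
endomorphisms which factor through objects of `𝒮`. It is closed under composition. Suppose that `I`
does not contain a member of `S`. If `I` contained a tensor product `z_1 ⊗ ⋯ ⊗ z_n` of members of
`S`, in any arrangement of brackets, then it would contain `z_1 ≫ ⋯ ≫ z_n` (partial traces), which
is a member of `S`. So there is a tensor ideal `P` containing `I` which is maximal among those which
do not contain a tensor product of members of `S`. It is prime: if `f ⊗ g` belongs to `P` but `f`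
and `g` do not, consider the ideals `(P : f)`.
-/

set_option autoImplicit false

open CategoryTheory MonoidalCategory

universe v u

namespace Pool.Agent.Results.MP_13bc1c_ag.SummandsOnPrimes

open Pool.Agent.TH829.Ten (Family IsTensorIdeal IsPrimeIdeal)

/-- The identity of `M` is congruent modulo `I` to a finite sum of endomorphisms which factor
through objects of the class `𝒮`: the object `M` is, modulo `I`, a direct summand of a finite direct
sum of objects of `𝒮`. -/
def SummandMod {𝒜 : Type u} [Category.{v} 𝒜] [Preadditive 𝒜] [Linear ℚ 𝒜] (I : Family 𝒜)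
    (𝒮 : 𝒜 → Prop) (M : 𝒜) : Prop :=
  ∃ (ι : Type) (_ : Fintype ι) (S : ι → 𝒜) (f : ∀ i, M ⟶ S i) (g : ∀ i, S i ⟶ M),
    (∀ i, 𝒮 (S i)) ∧ 𝟙 M - ∑ i, f i ≫ g i ∈ I M M

/-- (1) The object `M` is, modulo the tensor ideal `I`, a direct summand of a finite direct sum of
objects of `𝒮` if and only if the same is true modulo each prime tensor ideal containing `I`.
(2) The identity of `M` is a finite sum of endomorphisms which factor through objects of `𝒮` if
and only if this is true modulo each prime tensor ideal. -/
theorem result {𝒜 : Type u} [Category.{v} 𝒜] [MonoidalCategory 𝒜] [SymmetricCategory 𝒜]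
    [Preadditive 𝒜] [MonoidalPreadditive 𝒜] [Linear ℚ 𝒜] [MonoidalLinear ℚ 𝒜]
    [∀ X : 𝒜, HasRightDual X] (𝒮 : 𝒜 → Prop) (M : 𝒜) :
    (∀ I : Family 𝒜, IsTensorIdeal I → (SummandMod I 𝒮 M ↔
      ∀ P : Family 𝒜, IsPrimeIdeal P → I ≤ P → SummandMod P 𝒮 M)) ∧
    ((∃ (ι : Type) (_ : Fintype ι) (S : ι → 𝒜) (f : ∀ i, M ⟶ S i) (g : ∀ i, S i ⟶ M),
      (∀ i, 𝒮 (S i)) ∧ 𝟙 M = ∑ i, f i ≫ g i) ↔
      ∀ P : Family 𝒜, IsPrimeIdeal P → SummandMod P 𝒮 M) := by
  have key : ∀ I : Family 𝒜, IsTensorIdeal I → (SummandMod I 𝒮 M ↔
      ∀ P : Family 𝒜, IsPrimeIdeal P → I ≤ P → SummandMod P 𝒮 M) := fun I hI =>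
    Pool.Agent.TH829.Inj.splitMod_iff hI M (fun S _ => 𝒮 S)
  refine ⟨key, ?_⟩
  constructor
  · rintro ⟨ι, hι, S, f, g, h1, h2⟩ P _
    refine ⟨ι, hι, S, f, g, h1, ?_⟩
    rw [← h2, sub_self]
    exact Submodule.zero_mem _
  · intro h
    obtain ⟨ι, hι, S, f, g, h1, h2⟩ := (key (fun _ _ => ⊥)
      Pool.Agent.TH829.Ten.isTensorIdeal_bot).2 (fun P hP _ => h P hP)
    exact ⟨ι, hι, S, f, g, h1, sub_eq_zero.1 ((Submodule.mem_bot ℚ).1 h2)⟩

end Pool.Agent.Results.MP_13bc1c_ag.SummandsOnPrimes
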